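import Mathlib.Combinatorics.SimpleGraph.Clique
import Mathlib.Combinatorics.SimpleGraph.Hasse
import Mathlib.Data.ZMod.Basic
import Mathlib.Tactic
import Pool.Agent.Q251.Helly

/-!
# Tree-independence number versus induced biclique number in `P₅`-free graphs

The blow-up of the 5-cycle by independent sets of size `a` is `P₅`-free, has induced biclique
number `a` and tree-independence number `2a`.
-/

namespace Pool.Agent.Results.MP_0bffa7_co.BlowUpC5

open SimpleGraph Pool.Agent.Q251

/-- A tree decomposition of `G` with nodes `ι`: a tree `T` on `ι` and bags `bag t ⊆ V(G)` such that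
every vertex and every edge lies in some bag, and for every vertex the nodes whose bags contain it
induce a connected subtree. -/
structure TreeDecomp {V : Type} (G : SimpleGraph V) (ι : Type) where
  /-- the tree -/
  T : SimpleGraph ι
  /-- it is a tree -/
  isTree : T.IsTree
  /-- the bags -/
  bag : ι → Set V
  /-- every vertex lies in some bag -/
  vertex_mem : ∀ v, ∃ t, v ∈ bag t
  /-- every edge lies in some bag -/
  edge_mem : ∀ u v, G.Adj u v → ∃ t, u ∈ bag t ∧ v ∈ bag t
  /-- the nodes whose bags contain `v` form a connected subtree -/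
  connected : ∀ v, (T.induce {t | v ∈ bag t}).Connected

/-- The tree-independence number of `G`: the least `k` such that some tree decomposition of `G`
(with finitely many nodes) has `α(G[bag]) ≤ k` for all its bags. -/
noncomputable def treeAlpha {V : Type} (G : SimpleGraph V) : ℕ :=
  sInf {k | ∃ (ι : Type) (_ : Finite ι) (D : TreeDecomp G ι),
    ∀ t, (G.induce (D.bag t)).indepNum ≤ k}

/-- The induced biclique number of `G`: the largest `t` such that `K_{t,t}` is (isomorphic to) an
induced subgraph of `G`. -/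
noncomputable def ibn {V : Type} (G : SimpleGraph V) : ℕ :=
  sSup {t | Nonempty (completeBipartiteGraph (Fin t) (Fin t) ↪g G)}

/-- `G` is `P₅`-free: no induced subgraph of `G` is a path on five vertices. -/
def P5Free {V : Type} (G : SimpleGraph V) : Prop := IsEmpty (pathGraph 5 ↪g G)

/-- The blow-up of the 5-cycle: every vertex is replaced by `a` independent vertices. -/
def blow (a : ℕ) : SimpleGraph (ZMod 5 × Fin a) where
  Adj p q := q.1 = p.1 + 1 ∨ p.1 = q.1 + 1
  symm := ⟨fun _ _ h => h.symm⟩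
  loopless := ⟨fun p h => by
    have h2 : ∀ x : ZMod 5, x ≠ x + 1 := by decide
    rcases h with h | h <;> exact h2 _ h⟩

lemma blow_adj {a : ℕ} {p q : ZMod 5 × Fin a} :
    (blow a).Adj p q ↔ (q.1 = p.1 + 1 ∨ p.1 = q.1 + 1) := Iff.rfl

lemma blow_p5free (a : ℕ) : P5Free (blow a) := by
  refine ⟨fun f => ?_⟩
  have hf : ∀ i j : Fin 5, (blow a).Adj (f i) (f j) ↔ (pathGraph 5).Adj i j :=
    fun i j => f.map_rel_iff
  -- classes are injective
  have hinj : Function.Injective (fun i : Fin 5 => (f i).1) := by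
    intro i j hij
    have hij : (f i).1 = (f j).1 := hij
    by_contra hne
    have key : ∀ k, ((pathGraph 5).Adj i k ↔ (pathGraph 5).Adj j k) := by
      intro k
      rw [← hf, ← hf, blow_adj, blow_adj, hij]
    have hdec : ∀ i j : Fin 5, i ≠ j →
        ∃ k : Fin 5, ¬ ((i.val + 1 = k.val ∨ k.val + 1 = i.val) ↔
          (j.val + 1 = k.val ∨ k.val + 1 = j.val)) := by decide
    obtain ⟨k, hk⟩ := hdec i j hne
    apply hk
    have := key k
    rwa [pathGraph_adj, pathGraph_adj] at this
  have hsurj : Function.Surjective (fun i : Fin 5 => (f i).1) := by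
    have : Function.Bijective (fun i : Fin 5 => (f i).1) := by
      rw [Fintype.bijective_iff_injective_and_card]
      exact ⟨hinj, by simp⟩
    exact this.2
  obtain ⟨i, hi⟩ := hsurj ((f 0).1 + 1)
  obtain ⟨j, hj⟩ := hsurj ((f 0).1 - 1)
  have hi : (f i).1 = (f 0).1 + 1 := hi
  have hj : (f j).1 = (f 0).1 - 1 := hj
  have h1 : (pathGraph 5).Adj 0 i := by
    rw [← hf, blow_adj]; left; exact hi
  have h2 : (pathGraph 5).Adj 0 j := by
    rw [← hf, blow_adj]; right; rw [hj]; ring
  rw [pathGraph_adj] at h1 h2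
  have hij : i = j := by
    apply Fin.ext
    simp at h1 h2
    omega
  subst hij
  rw [hi] at hj
  have : ∀ x : ZMod 5, x + 1 ≠ x - 1 := by decide
  exact this _ hj

/-- An independent set of the blow-up has at most `2a` vertices. -/
lemma blow_indep_card (a : ℕ) (S : Finset (ZMod 5 × Fin a)) (hS : (blow a).IsIndepSet S) :
    S.card ≤ 2 * a := by
  classical
  set J : Finset (ZMod 5) := S.image Prod.fst with hJ
  have h1 : ∀ i ∈ J, i + 1 ∉ J := by
    intro i hi hi'
    rw [hJ, Finset.mem_image] at hi hi'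
    obtain ⟨p, hp, hpi⟩ := hi
    obtain ⟨q, hq, hqi⟩ := hi'
    have hadj : (blow a).Adj p q := by rw [blow_adj, hpi, hqi]; left; rfl
    exact hS hp hq hadj.ne hadj
  have h2 : ∀ J : Finset (ZMod 5), (∀ i ∈ J, i + 1 ∉ J) → J.card ≤ 2 := by decide
  have h3 := h2 J h1
  have h4 : S ⊆ J ×ˢ (Finset.univ : Finset (Fin a)) := by
    intro p hp
    rw [Finset.mem_product]
    exact ⟨Finset.mem_image_of_mem _ hp, Finset.mem_univ _⟩
  calc S.card ≤ (J ×ˢ (Finset.univ : Finset (Fin a))).card := Finset.card_le_card h4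
    _ = J.card * a := by rw [Finset.card_product, Finset.card_univ, Fintype.card_fin]
    _ ≤ 2 * a := Nat.mul_le_mul_right _ h3

lemma indepNum_induce_le (a : ℕ) (B : Set (ZMod 5 × Fin a)) :
    ((blow a).induce B).indepNum ≤ 2 * a := by
  classical
  obtain ⟨s, hs⟩ := ((blow a).induce B).exists_isNIndepSet_indepNum
  rw [← hs.card_eq]
  have : (s.map (Function.Embedding.subtype _)).card ≤ 2 * a := by
    apply blow_indep_card
    intro x hx y hy hxy
    simp only [Finset.coe_map, Function.Embedding.subtype_apply, Set.mem_image,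
      Finset.mem_coe] at hx hy
    obtain ⟨x', hx', rfl⟩ := hx
    obtain ⟨y', hy', rfl⟩ := hy
    exact hs.isIndepSet hx' hy' (fun h => hxy (by rw [h]))
  rwa [Finset.card_map] at this

lemma le_indepNum_induce {V : Type} [Finite V] (G : SimpleGraph V) (B : Set V) (S : Finset V)
    (hSB : ∀ x ∈ S, x ∈ B) (hS : G.IsIndepSet S) : S.card ≤ (G.induce B).indepNum := by
  classical
  have : (S.subtype (· ∈ B)).card = S.card := by
    rw [Finset.card_subtype, Finset.filter_true_of_mem hSB]
  rw [← this]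
  have := Fintype.ofFinite V
  apply IsIndepSet.card_le_indepNum
  intro x hx y hy hxy
  have hx' := Finset.mem_subtype.mp (Finset.mem_coe.mp hx)
  have hy' := Finset.mem_subtype.mp (Finset.mem_coe.mp hy)
  exact hS hx' hy' (fun h => hxy (Subtype.ext h))

/-- Every tree decomposition of the blow-up has a bag containing two non-adjacent classes. -/
lemma exists_bag {a : ℕ} {ι : Type} (D : TreeDecomp (blow a) ι) :
    ∃ t, ∃ i : ZMod 5, (∀ x, (i, x) ∈ D.bag t) ∧ (∀ x, (i + 2, x) ∈ D.bag t) := by
  classical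
  by_cases ha : a = 0
  · subst ha
    obtain ⟨t⟩ := D.isTree.connected.nonempty
    exact ⟨t, 0, fun x => x.elim0, fun x => x.elim0⟩
  have hv : ∀ v i j, v ∈ D.bag i → v ∈ D.bag j →
      ∃ q : D.T.Walk i j, ∀ x ∈ q.support, v ∈ D.bag x := by
    intro v i j hi hj
    exact wconn_of_induce_connected (D.connected v).preconnected i hi j hj
  -- the bramble: paths through three consecutive classes
  let κ := ZMod 5 × Fin a × Fin a × Fin a
  let P : κ → Set (ZMod 5 × Fin a) := fun p =>
    {(p.1, p.2.1), (p.1 + 1, p.2.2.1), (p.1 + 2, p.2.2.2)}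
  have hP : ∀ p, WConn (blow a) (P p) := by
    rintro ⟨i, x, y, z⟩
    have key : ∀ u ∈ P (i, x, y, z), ∃ q : (blow a).Walk u (i + 1, y),
        ∀ w ∈ q.support, w ∈ P (i, x, y, z) := by
      intro u hu
      simp only [P, Set.mem_insert_iff, Set.mem_singleton_iff] at hu
      rcases hu with rfl | rfl | rfl
      · refine ⟨Walk.cons (v := (i + 1, y)) (by rw [blow_adj]; left; rfl) Walk.nil, ?_⟩
        intro w hw
        simp only [Walk.support_cons, Walk.support_nil, List.mem_cons, List.not_mem_nil,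
          or_false] at hw
        rcases hw with rfl | rfl <;> simp [P]
      · refine ⟨Walk.nil, ?_⟩
        intro w hw
        simp only [Walk.support_nil, List.mem_cons, List.not_mem_nil, or_false] at hw
        subst hw; simp [P]
      · refine ⟨Walk.cons (v := (i + 1, y)) (by rw [blow_adj]; right; ring) Walk.nil, ?_⟩
        intro w hw
        simp only [Walk.support_cons, Walk.support_nil, List.mem_cons, List.not_mem_nil,
          or_false] at hw
        rcases hw with rfl | rfl <;> simp [P]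
    intro u hu v hv
    obtain ⟨q, hq⟩ := key u hu
    obtain ⟨q', hq'⟩ := key v hv
    refine ⟨q.append q'.reverse, fun w hw => ?_⟩
    rw [Walk.mem_support_append_iff] at hw
    rcases hw with hw | hw
    · exact hq w hw
    · rw [Walk.support_reverse, List.mem_reverse] at hw
      exact hq' w hw
  have hmem : ∀ (p : κ) (v : ZMod 5 × Fin a), v ∈ P p ↔
      (v = (p.1, p.2.1) ∨ v = (p.1 + 1, p.2.2.1) ∨ v = (p.1 + 2, p.2.2.2)) := by
    intro p v; rfl
  -- they touch pairwise
  have htouch : ∀ p q : κ, ∃ u ∈ P p, ∃ v ∈ P q, (blow a).Adj u v := by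
    rintro ⟨i, x, y, z⟩ ⟨j, x', y', z'⟩
    have hdec : ∀ i j : ZMod 5, ∃ s t : Fin 3,
        (j + (t.val : ZMod 5) = i + (s.val : ZMod 5) + 1 ∨
          i + (s.val : ZMod 5) = j + (t.val : ZMod 5) + 1) := by decide
    obtain ⟨s, t, hst⟩ := hdec i j
    have hs : ∃ w, (i + (s.val : ZMod 5), w) ∈ P (i, x, y, z) := by
      fin_cases s
      · exact ⟨x, by simp [P]⟩
      · exact ⟨y, by simp [P]⟩
      · exact ⟨z, by simp [P]⟩
    have ht : ∃ w, (j + (t.val : ZMod 5), w) ∈ P (j, x', y', z') := by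
      fin_cases t
      · exact ⟨x', by simp [P]⟩
      · exact ⟨y', by simp [P]⟩
      · exact ⟨z', by simp [P]⟩
    obtain ⟨w, hw⟩ := hs
    obtain ⟨w', hw'⟩ := ht
    exact ⟨_, hw, _, hw', by rw [blow_adj]; exact hst⟩
  have hne : Nonempty κ := by
    have : Nonempty (Fin a) := ⟨⟨0, Nat.pos_of_ne_zero ha⟩⟩
    infer_instance
  have hfin : Finite κ := by
    have : Finite (ZMod 5) := inferInstance
    infer_instance
  obtain ⟨t, ht⟩ := helly D.isTree (fun p : κ => {i | ∃ v ∈ P p, v ∈ D.bag i})
    (fun p => trace_conn D.edge_mem hv (hP p)) (by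
      intro p q
      obtain ⟨u, hu, v, hv', huv⟩ := htouch p q
      obtain ⟨s, hs1, hs2⟩ := D.edge_mem u v huv
      exact ⟨s, ⟨u, hu, hs1⟩, ⟨v, hv', hs2⟩⟩)
  refine ⟨t, ?_⟩
  -- classes that are completely contained in the bag
  by_contra hcon
  push Not at hcon
  have h1 : ∀ i : ZMod 5, (∃ x, (i, x) ∉ D.bag t) ∨ (∃ x, (i + 2, x) ∉ D.bag t) := by
    intro i
    by_cases h : ∀ x, (i, x) ∈ D.bag t
    · right; exact hcon i h
    · left; push Not at h; exact h
  have hdec : ∀ J : Finset (ZMod 5), (∀ i, i ∈ J ∨ i + 2 ∈ J) →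
      ∃ i, i ∈ J ∧ i + 1 ∈ J ∧ i + 2 ∈ J := by decide
  obtain ⟨i, hi0, hi1, hi2⟩ := hdec (Finset.univ.filter (fun i => ∃ x, (i, x) ∉ D.bag t)) (by
    intro i
    simpa using h1 i)
  simp only [Finset.mem_filter, Finset.mem_univ, true_and] at hi0 hi1 hi2
  obtain ⟨x, hx⟩ := hi0
  obtain ⟨y, hy⟩ := hi1
  obtain ⟨z, hz⟩ := hi2
  obtain ⟨v, hvP, hvB⟩ := ht (i, x, y, z)
  rw [hmem] at hvP
  rcases hvP with rfl | rfl | rfl
  · exact hx hvB
  · exact hy hvB
  · exact hz hvB

lemma le_treeAlpha_bag {a : ℕ} {ι : Type} (D : TreeDecomp (blow a) ι) :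
    ∃ t, 2 * a ≤ ((blow a).induce (D.bag t)).indepNum := by
  classical
  obtain ⟨t, i, h1, h2⟩ := exists_bag D
  refine ⟨t, ?_⟩
  have hne : ∀ i : ZMod 5, i ≠ i + 2 := by decide
  have hc : (({i, i + 2} : Finset (ZMod 5)) ×ˢ (Finset.univ : Finset (Fin a))).card = 2 * a := by
    rw [Finset.card_product, Finset.card_pair (hne i), Finset.card_univ, Fintype.card_fin]
  rw [← hc]
  apply le_indepNum_induce
  · rintro ⟨j, x⟩ hj
    simp only [Finset.mem_product, Finset.mem_insert, Finset.mem_singleton, Finset.mem_univ,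
      and_true] at hj
    rcases hj with rfl | rfl
    · exact h1 x
    · exact h2 x
  · rintro ⟨j, x⟩ hj ⟨k, y⟩ hk - hadj
    simp only [Finset.coe_product, Finset.coe_insert, Finset.coe_singleton, Finset.coe_univ,
      Set.mem_prod, Set.mem_insert_iff, Set.mem_singleton_iff, Set.mem_univ, and_true] at hj hk
    rw [blow_adj] at hadj
    have hdec : ∀ i j k : ZMod 5, (j = i ∨ j = i + 2) → (k = i ∨ k = i + 2) →
        ¬ (k = j + 1 ∨ j = k + 1) := by decide
    exact hdec i j k hj hk hadj

/-- The one-bag tree decomposition. -/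
def trivialDecomp {V : Type} (G : SimpleGraph V) : TreeDecomp G Unit where
  T := ⊥
  isTree := by
    refine ⟨⟨fun _ _ => Reachable.refl _⟩, ?_⟩
    exact isAcyclic_bot
  bag := fun _ => Set.univ
  vertex_mem := fun _ => ⟨(), trivial⟩
  edge_mem := fun _ _ _ => ⟨(), trivial, trivial⟩
  connected := fun v => by
    have : Nonempty {t : Unit | v ∈ (Set.univ : Set V)} := ⟨⟨(), trivial⟩⟩
    exact ⟨fun x y => by
      have : x = y := Subsingleton.elim _ _
      rw [this]⟩

lemma treeAlpha_blow (a : ℕ) : treeAlpha (blow a) = 2 * a := by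
  apply le_antisymm
  · apply Nat.sInf_le
    exact ⟨Unit, inferInstance, trivialDecomp _, fun t => indepNum_induce_le a _⟩
  · apply le_csInf
    · exact ⟨2 * a, Unit, inferInstance, trivialDecomp _, fun t => indepNum_induce_le a _⟩
    · rintro k ⟨ι, _, D, hD⟩
      obtain ⟨t, ht⟩ := le_treeAlpha_bag D
      exact ht.trans (hD t)

lemma blow_biclique_le (a t : ℕ)
    (f : completeBipartiteGraph (Fin t) (Fin t) ↪g blow a) : t ≤ a := by
  classical
  have hadj : ∀ x y : Fin t, (blow a).Adj (f (Sum.inl x)) (f (Sum.inr y)) := by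
    intro x y
    rw [f.map_rel_iff]
    simp
  -- injectivity on a class
  have hcl : ∀ g : Fin t → ZMod 5 × Fin a, Function.Injective g → (∀ x y, (g x).1 = (g y).1) →
      t ≤ a := by
    intro g hg hg1
    have : Function.Injective (fun x => (g x).2) := by
      intro x y hxy
      exact hg (Prod.ext (hg1 x y) hxy)
    have := Fintype.card_le_of_injective _ this
    simpa using this
  by_cases h : ∀ x y : Fin t, (f (Sum.inl x)).1 = (f (Sum.inl y)).1
  · exact hcl (fun x => f (Sum.inl x)) (fun x y hxy => Sum.inl_injective (f.injective hxy)) h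
  · push Not at h
    obtain ⟨x, x', hxx⟩ := h
    apply hcl (fun y => f (Sum.inr y)) (fun x y hxy => Sum.inr_injective (f.injective hxy))
    intro y y'
    have h1 := hadj x y
    have h2 := hadj x' y
    have h3 := hadj x y'
    have h4 := hadj x' y'
    rw [blow_adj] at h1 h2 h3 h4
    have hdec : ∀ p p' q q' : ZMod 5, p ≠ p' → (q = p + 1 ∨ p = q + 1) →
        (q = p' + 1 ∨ p' = q + 1) → (q' = p + 1 ∨ p = q' + 1) →
        (q' = p' + 1 ∨ p' = q' + 1) → q = q' := by decide
    exact hdec _ _ _ _ hxx h1 h2 h3 h4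

/-- the two sides of `K_{a,a}` are mapped to two consecutive classes -/
def bicliqueFun (a : ℕ) : Fin a ⊕ Fin a → ZMod 5 × Fin a :=
  Sum.elim (fun x => (0, x)) (fun y => (1, y))

lemma bicliqueFun_inj (a : ℕ) : Function.Injective (bicliqueFun a) := by
  have h01 : (0 : ZMod 5) ≠ 1 := by decide
  rintro (x | x) (y | y) h
  · exact congrArg Sum.inl (congrArg Prod.snd h)
  · exact absurd (congrArg Prod.fst h) h01
  · exact absurd (congrArg Prod.fst h) h01.symm
  · exact congrArg Sum.inr (congrArg Prod.snd h)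

lemma bicliqueFun_adj (a : ℕ) (u v : Fin a ⊕ Fin a) :
    (blow a).Adj (bicliqueFun a u) (bicliqueFun a v) ↔
      (completeBipartiteGraph (Fin a) (Fin a)).Adj u v := by
  have h1 : ¬ ((0 : ZMod 5) = 0 + 1 ∨ (0 : ZMod 5) = 0 + 1) := by decide
  have h2 : ¬ ((1 : ZMod 5) = 1 + 1 ∨ (1 : ZMod 5) = 1 + 1) := by decide
  have h3 : ((1 : ZMod 5) = 0 + 1 ∨ (0 : ZMod 5) = 1 + 1) := by decide
  have h4 : ((0 : ZMod 5) = 1 + 1 ∨ (1 : ZMod 5) = 0 + 1) := by decide
  rw [blow_adj]
  rcases u with x | x <;> rcases v with y | y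
  · exact iff_of_false h1 (by simp)
  · exact iff_of_true h3 (by simp)
  · exact iff_of_true h4 (by simp)
  · exact iff_of_false h2 (by simp)

/-- `K_{a,a}` is an induced subgraph of the blow-up. -/
def bicliqueEmb (a : ℕ) : completeBipartiteGraph (Fin a) (Fin a) ↪g blow a :=
  ⟨⟨bicliqueFun a, bicliqueFun_inj a⟩, bicliqueFun_adj a _ _⟩

lemma ibn_blow (a : ℕ) : ibn (blow a) = a := by
  apply le_antisymm
  · apply csSup_le
    · exact ⟨a, ⟨bicliqueEmb a⟩⟩
    · rintro t ⟨f⟩
      exact blow_biclique_le a t f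
  · apply le_csSup
    · refine ⟨a, ?_⟩
      rintro t ⟨f⟩
      exact blow_biclique_le a t f
    · exact ⟨bicliqueEmb a⟩

/-- For every `a` there is a finite `P₅`-free graph whose induced biclique number is `a` and whose
tree-independence number is `2a`. -/
theorem result : ∀ a : ℕ, ∃ (V : Type) (_ : Fintype V) (G : SimpleGraph V),
    P5Free G ∧ ibn G = a ∧ treeAlpha G = 2 * a :=
  fun a => ⟨ZMod 5 × Fin a, inferInstance, blow a, blow_p5free a, ibn_blow a, treeAlpha_blow a⟩

end Pool.Agent.Results.MP_0bffa7_co.BlowUpC5
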